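import Pool.Agent.Helper812_AF.Fwd

/-!
# The motivic t-structure and the conjectures on Chow motives

Let `C` be a rigid tensor triangulated category over `ℚ` with `End(𝟙) = ℚ`, with realisations
`R l` and with a class `P` of Chow motives, such that the hard Lefschetz theorem holds for one of
the realisations. The category of constructible motives over an arbitrary field is an example. It is
shown that there is a motivic t-structure on `C` if and only if the following conjectures hold:

* Künneth decompositions: every Chow motive is a finite direct sum of Chow motives with cohomology in
  a single degree;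
* every non zero morphism `𝟙 ⟶ X`, for a Chow motive `X` with cohomology in degree zero, has a non
  zero intersection number with some morphism `X ⟶ 𝟙`;
* the vanishing conjectures of Murre and of Beilinson and Soulé.
-/

set_option autoImplicit false

open CategoryTheory Limits MonoidalCategory Pretriangulated Triangulated

universe v u w

namespace Pool.Agent.Results.MP_6d0ce9_ag.AllFields

open Pool.Agent.Y116.MT Pool.Agent.Helper812_FF Pool.Agent.Helper812_AF

/-- There is a motivic t-structure if and only if there are Künneth decompositions of the Chow
motives, the numerical and the rational equivalence agree in degree zero, and the vanishing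
conjectures hold. -/
theorem result {C : Type u} [Category.{v} C] [Preadditive C] [Linear ℚ C] [HasZeroObject C]
    [HasShift C ℤ] [∀ n : ℤ, (shiftFunctor C n).Additive] [Pretriangulated C] [IsTriangulated C]
    [IsIdempotentComplete C] [MonoidalCategory C] [SymmetricCategory C] [TensorTriangulated C]
    [MonoidalPreadditive C] [RightRigidCategory C]
    (hq : ∀ e : 𝟙_ C ⟶ 𝟙_ C, ∃ a : ℚ, e = a • 𝟙 _)
    {Λ : Type*} {E : Λ → Type w} [∀ l, Field (E l)]
    (R : ∀ l, Realisation C (E l)) (P : ObjectProperty C) (hP : ChowMotives P)
    (T : C) (l₀ : Λ) (hL : HardLefschetzFor P T (R l₀)) :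
    (∃ t : TStructure C, IsMotivic t R) ↔
      KunnethDecompositions P R ∧ NumericalInDegreeZero P R ∧ VanishingConjectures P R := by
  have : Nonempty Λ := ⟨l₀⟩
  constructor
  · rintro ⟨t, h⟩
    exact ⟨kunneth_of_motivic hq hP hL h, numericalZero_of_motivic hq hP h,
      vanishing_of_motivic hq hP h⟩
  · rintro ⟨hK, hN, hV⟩
    exact motivic_of_conjectures hP hK hV hq hN l₀

end Pool.Agent.Results.MP_6d0ce9_ag.AllFields
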