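import Pool.Agent.Helper812_FF.Fwd

/-!
# The motivic t-structure over a finite field

Let `C` be a rigid tensor triangulated category over `ℚ` with `End(𝟙) = ℚ`, with realisations
`R l`, with a class `P` of Chow motives, and with an endomorphism `φ` of the identity functor
which has the properties of the Frobenius (weights). The category of constructible motives over a
finite field is an example. It is shown that the following are equivalent:

* there is a motivic t-structure on `C`;
* Parshin's conjecture holds, and rational and numerical equivalence agree on Chow motives;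
* some realisation is faithful;
* all realisations are faithful.
-/

set_option autoImplicit false

open CategoryTheory Limits MonoidalCategory Pretriangulated Triangulated

universe v u w

namespace Pool.Agent.Results.MP_6d0ce9_ag.FiniteFields

open Pool.Agent.Y116.MT Pool.Agent.Helper812_FF

/-- The following are equivalent: (1) there is a motivic t-structure; (2) Parshin's conjecture and
Beilinson's conjecture (rational equivalence is numerical equivalence) hold; (3) some realisation
is faithful; (4) all realisations are faithful. -/
theorem result {C : Type u} [Category.{v} C] [Preadditive C] [Linear ℚ C] [HasZeroObject C]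
    [HasShift C ℤ] [∀ n : ℤ, (shiftFunctor C n).Additive] [Pretriangulated C] [IsTriangulated C]
    [IsIdempotentComplete C] [MonoidalCategory C] [SymmetricCategory C] [TensorTriangulated C]
    [MonoidalPreadditive C] [RightRigidCategory C]
    (hq : ∀ e : 𝟙_ C ⟶ 𝟙_ C, ∃ a : ℚ, e = a • 𝟙 _)
    {Λ : Type*} [Nonempty Λ] {E : Λ → Type w} [∀ l, Field (E l)]
    (R : ∀ l, Realisation C (E l)) (P : ObjectProperty C) (hP : ChowMotives P)
    (φ : 𝟭 C ⟶ 𝟭 C) (hφ : FrobeniusWeights P R φ) :
    List.TFAE [∃ t : TStructure C, IsMotivic t R, Parshin P ∧ RationalIsNumerical P,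
      ∃ l, Faithful (R l), ∀ l, Faithful (R l)] := by
  tfae_have 1 → 2 := fun ⟨_, h⟩ => numerical_of_motivic hq hP hφ h
  tfae_have 2 → 4 := fun ⟨h1, h2⟩ => faithful_of_numerical hq hP hφ h1 h2
  tfae_have 4 → 3 := fun h => ⟨Classical.arbitrary Λ, h _⟩
  tfae_have 3 → 1 := fun ⟨_, h⟩ => motivic_of_faithful hq hP hφ h
  tfae_finish

end Pool.Agent.Results.MP_6d0ce9_ag.FiniteFields
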