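import Pool.Agent.Helper812_MT.Defs
import Pool.Agent.Helper812_MT.Prime

/-!
# One prime is enough for a motivic t-structure

Let `C` be a rigid tensor triangulated category with realisations `R l`, with an indecomposable
unit, and with pure generators: objects which generate `C`, whose Betti numbers do not depend
on `l`, and for which the hard Lefschetz theorem holds for one realisation `R l₀`. These are known
properties of the category of constructible motives over a field of any characteristic.

It is shown that a t-structure on `C` is motivic for all realisations `R l` at once if (and only if)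
the single realisation `R l₀` is conservative and t-exact, and that then the realisations of every
morphism of `C` have the same rank in each degree for all `l`. So all Betti numbers of all objects
are independent of `l`.
-/

set_option autoImplicit false

open CategoryTheory Limits MonoidalCategory Pretriangulated Triangulated

universe v u w

namespace Pool.Agent.Results.MP_6d0ce9_ag.OnePrime

open Pool.Agent.Y116.MT Pool.Agent.V1178.MT Pool.Agent.Helper812_MT

/-- (1) In the presence of pure generators, a t-structure is motivic for all realisations `R l` if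
and only if the realisation `R l₀` is conservative and t-exact. (2) In this case the rank of
the realisation of a morphism `f` in degree `n` does not depend on `l`. -/
theorem result {C : Type u} [Category.{v} C] [Preadditive C] [HasZeroObject C] [HasShift C ℤ]
    [∀ n : ℤ, (shiftFunctor C n).Additive] [Pretriangulated C] [IsTriangulated C]
    [MonoidalCategory C] [SymmetricCategory C] [TensorTriangulated C] [MonoidalPreadditive C]
    [RightRigidCategory C] (hid : ∀ e : 𝟙_ C ⟶ 𝟙_ C, e ≫ e = e → e = 0 ∨ e = 𝟙 _)
    {Λ : Type*} {E : Λ → Type w} [∀ l, Field (E l)] (R : ∀ l, Realisation C (E l)) (l₀ : Λ)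
    (P : ObjectProperty C) (T : C) (hP : PureGenerators P T R l₀) (t : TStructure C) :
    (IsMotivic t R ↔ Conservative (R l₀) ∧ ExactUpTo t (R l₀) 0) ∧
    (IsMotivic t R → ∀ (X Y : C) (f : X ⟶ Y) (n : ℤ) (l : Λ),
      rank (R l) f n = rank (R l₀) f n) := by
  have hex : ∀ l, ExactUpTo t (R l) 0 → TExact t (R l) := fun l h =>
    ⟨fun X hX => (h X).1 hX, fun X hX i hi => (h X).2 hX i (by simpa using hi)⟩
  obtain ⟨T', ⟨eT⟩⟩ := hP.invertible
  have good : Conservative (R l₀) → TExact t (R l₀) → ∀ l X, GoodObj t (R l₀) (R l) X :=
    fun hc he l => good_all hc he hid eT (hP.degree l₀) (hP.degree l) hP.generates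
      (fun Q hQ n => hP.betti_eq Q hQ l n) hP.lefschetz
  have fwd : IsMotivic t R → Conservative (R l₀) ∧ ExactUpTo t (R l₀) 0 := by
    intro h
    have : Nonempty Λ := ⟨l₀⟩
    have ht : TensorCompat t := ⟨h.tensor_le, h.tensor_ge⟩
    have hu : Hrt t (𝟙_ C) := unit_hrt ht h.nondeg_le h.nondeg_ge
    exact ⟨fun X hX => conservative ht ⟨h.exact_le l₀, h.exact_ge l₀⟩ hu hid h.nondeg_le
      h.nondeg_ge hX, fun X => ⟨h.exact_le l₀ X, fun hX i hi => h.exact_ge l₀ X hX i
        (by simpa using hi)⟩⟩
  refine ⟨⟨fwd, fun ⟨hc, h0⟩ => ?_⟩, fun h X Y f n l => ?_⟩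
  · have he := hex l₀ h0
    have he' : ∀ l, TExact t (R l) := fun l => exact_all hc he (good hc he l)
    refine ⟨fun X hX => hc X fun i => he.isLE (n := i - 1) ⟨hX _⟩ i (by omega),
      fun X hX => hc X fun i => he.isGE (n := i + 1) ⟨hX _⟩ i (by omega),
      (tensorCompat_of hc he).le, (tensorCompat_of hc he).ge, fun l => (he' l).le,
      fun l => (he' l).ge⟩
  · obtain ⟨hc, h0⟩ := fwd h
    exact rank_all (hex l₀ h0) ⟨h.exact_le l, h.exact_ge l⟩ (good hc (hex l₀ h0) l) f n

end Pool.Agent.Results.MP_6d0ce9_ag.OnePrime
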