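import Pool.Agent.Helper812_LT.Conv

/-!
# The motivic t-structure and the separation of two degrees

Let `C` be an idempotent complete rigid tensor triangulated category with realisations `R l` and
with an indecomposable unit, such as the category of constructible motives over a field. It is
shown that a motivic t-structure exists if and only if some `R l` is conservative and every object
is an extension of an object with cohomology in positive degrees by an object with cohomology in
degrees `≤ 0`. No vanishing of morphisms (such as the conjecture of Beilinson and Soulé) has to be
required: the orthogonality of the two classes is a consequence. If, moreover, the objects with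
cohomology in a single degree generate `C` as a thick subcategory (this is known in characteristic
zero, from the basic lemma of Beilinson, and it is necessary), it is enough to separate two degrees: to show
this for the objects with cohomology in two degrees only, or only for the fibres of the
morphisms between two objects with cohomology in one degree each.
-/

set_option autoImplicit false

open CategoryTheory Limits MonoidalCategory Pretriangulated Triangulated

universe v u w

namespace Pool.Agent.Results.MP_6d0ce9_ag.TwoDegrees

open Pool.Agent.Y116.MT Pool.Agent.V1178.MT Pool.Agent.Helper812_LT

/-- The following are equivalent: (1) there is a motivic t-structure; (2) some realisation is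
conservative and the truncations lift; (3) some realisation is conservative, the objects in a
single degree generate, and two degrees can be separated; (4) the same, where only the fibres of
morphisms between objects in a single degree have to be separated. -/
theorem result {C : Type u} [Category.{v} C] [Preadditive C] [HasZeroObject C] [HasShift C ℤ]
    [∀ n : ℤ, (shiftFunctor C n).Additive] [Pretriangulated C] [IsTriangulated C]
    [IsIdempotentComplete C] [MonoidalCategory C] [SymmetricCategory C] [TensorTriangulated C]
    [MonoidalPreadditive C] [RightRigidCategory C]
    (hid : ∀ e : 𝟙_ C ⟶ 𝟙_ C, e ≫ e = e → e = 0 ∨ e = 𝟙 _)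
    {Λ : Type*} [Nonempty Λ] {E : Λ → Type w} [∀ l, Field (E l)]
    (R : ∀ l, Realisation C (E l)) :
    List.TFAE [∃ t : TStructure C, IsMotivic t R,
      (∃ l, Conservative (R l)) ∧ TruncationsLift R,
      (∃ l, Conservative (R l)) ∧ SingleDegreesGenerate R ∧ TwoDegreesSeparate R,
      (∃ l, Conservative (R l)) ∧ SingleDegreesGenerate R ∧ FibresSeparate R] := by
  tfae_have 1 → 3 := by
    rintro ⟨t, h⟩
    obtain ⟨l⟩ := ‹Nonempty Λ›
    have hc := conservative_of_motivic hid h l
    exact ⟨⟨l, hc⟩, generate_of_motivic h hc, separate_of_motivic h⟩
  tfae_have 3 → 4 := fun ⟨h1, h2, h3⟩ => ⟨h1, h2, fibres_of_two h3⟩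
  tfae_have 4 → 2 := fun ⟨⟨l, hc⟩, h2, h3⟩ => ⟨⟨l, hc⟩, lift_of_separate h3 hc h2⟩
  tfae_have 2 → 1 := fun ⟨⟨_, hc⟩, h2⟩ => ⟨tStr hc h2, tStr_motivic hc h2⟩
  tfae_finish

end Pool.Agent.Results.MP_6d0ce9_ag.TwoDegrees
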